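import Pool.Agent.W78.EC.Defs2

/-!
Theta series in residue classes near `0`.
-/

set_option autoImplicit false
set_option linter.unusedVariables false

namespace Pool.Agent.W930.EC

open Pool.Agent.W78.EC HurwitzZeta

/-- the cosine kernel is exponentially close to one -/
lemma cos_bound (a : ℝ) {y y0 : ℝ} (hy0 : 0 < y0) (hy : y0 ≤ y) :
    |cosKernel a y - 1| ≤ 2 * Real.exp (-(Real.pi * y)) / (1 - Real.exp (-(Real.pi * y0))) := by
  have hyp : 0 < y := lt_of_lt_of_le hy0 hy
  have hpi := Real.pi_pos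
  set q := Real.exp (-(Real.pi * y)) with hq
  have hq0 : 0 < q := Real.exp_pos _
  have hq1 : q < 1 := by
    rw [hq, Real.exp_lt_one_iff]
    have := mul_pos hpi hyp
    linarith
  have hq2 : q ≤ Real.exp (-(Real.pi * y0)) := by
    rw [hq, Real.exp_le_exp]
    have := mul_le_mul_of_nonneg_left hy hpi.le
    linarith
  have hq3 : Real.exp (-(Real.pi * y0)) < 1 := by
    rw [Real.exp_lt_one_iff]
    have := mul_pos hpi hy0
    linarith
  have h1 := hasSum_nat_cosKernel₀ a hyp
  have h2 := (hasSum_geometric_of_lt_one hq0.le hq1).mul_left (2 * q)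
  have h3 := h1.norm_le_of_bounded h2 (fun n => by
    rw [norm_mul, norm_mul, Real.norm_eq_abs, Real.norm_eq_abs, Real.norm_eq_abs,
      abs_of_pos (Real.exp_pos _), abs_of_pos (show (0 : ℝ) < 2 by norm_num)]
    have e : 2 * q * q ^ n = 2 * 1 * Real.exp (-(Real.pi * y) * ((n : ℝ) + 1)) := by
      have : Real.exp (-(Real.pi * y) * ((n : ℝ) + 1)) = q ^ (n + 1) := by
        rw [hq, ← Real.exp_nat_mul]
        congr 1
        push_cast
        ring
      rw [this, pow_succ]
      ring
    rw [e]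
    refine mul_le_mul (mul_le_mul_of_nonneg_left (Real.abs_cos_le_one _) (by norm_num)) ?_
      (Real.exp_pos _).le (by norm_num)
    rw [Real.exp_le_exp]
    have hn : (0 : ℝ) ≤ n := Nat.cast_nonneg n
    have hpy : 0 < Real.pi * y := mul_pos hpi hyp
    nlinarith [mul_nonneg hpy.le (mul_nonneg hn (by linarith : (0 : ℝ) ≤ n + 1))])
  rw [Real.norm_eq_abs] at h3
  refine h3.trans ?_
  rw [← div_eq_mul_inv]
  apply div_le_div_of_nonneg_left (by positivity) (by linarith) (by linarith)

theorem theta : S_THETA := by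
  intro M r hM
  have hM' : (0 : ℝ) < M := by exact_mod_cast hM
  have hpi := Real.pi_pos
  set q0 := Real.exp (-(Real.pi * (Real.pi / M ^ 2))) with hq0
  have hq01 : q0 < 1 := by
    rw [hq0, Real.exp_lt_one_iff]
    have : 0 < Real.pi * (Real.pi / M ^ 2) := by positivity
    linarith
  have h1q : 0 < 1 - q0 := by linarith
  refine ⟨Real.pi ^ 2 / M ^ 2, Real.sqrt Real.pi / M * (2 / (1 - q0)), by positivity,
    by positivity, ?_⟩
  intro t ht ht1
  have hst : 0 < Real.sqrt t := Real.sqrt_pos.2 ht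
  set T : ℝ := t * M ^ 2 / Real.pi with hT
  have hT0 : 0 < T := by positivity
  set a : ℝ := r / M with ha
  have e1 : (∑' x : ℤ, Real.exp (-(t * (r + M * x : ℝ) ^ 2))) = evenKernel a T := by
    rw [← (hasSum_int_evenKernel a hT0).tsum_eq]
    refine tsum_congr fun x => ?_
    congr 1
    rw [hT, ha]
    field_simp
    ring
  have e2 : 1 / T ^ (1 / 2 : ℝ) = Real.sqrt (Real.pi / t) / M := by
    rw [← Real.sqrt_eq_rpow, hT, Real.sqrt_div (by positivity), Real.sqrt_mul ht.le,
      Real.sqrt_sq hM'.le, Real.sqrt_div hpi.le]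
    field_simp
  have e3 : 1 / T = Real.pi / (t * M ^ 2) := by
    rw [hT, one_div_div]
  rw [e1, evenKernel_functional_equation, e2]
  have e4 : Real.sqrt (Real.pi / t) / M * cosKernel a (1 / T) - Real.sqrt (Real.pi / t) / M =
      Real.sqrt (Real.pi / t) / M * (cosKernel a (1 / T) - 1) := by ring
  rw [e4, abs_mul, abs_of_nonneg (by positivity)]
  have h2 : Real.pi / (M : ℝ) ^ 2 ≤ 1 / T := by
    rw [e3]
    apply div_le_div_of_nonneg_left hpi.le (by positivity)
    have : t * (M : ℝ) ^ 2 ≤ 1 * (M : ℝ) ^ 2 := mul_le_mul_of_nonneg_right ht1 (by positivity)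
    linarith
  have h3 := cos_bound a (by positivity) h2
  refine (mul_le_mul_of_nonneg_left h3 (by positivity)).trans (le_of_eq ?_)
  have e5 : Real.exp (-(Real.pi * (1 / T))) = Real.exp (-(Real.pi ^ 2 / M ^ 2 / t)) := by
    congr 1
    rw [e3]
    field_simp
  rw [e5, ← hq0, Real.sqrt_div hpi.le]
  field_simp

end Pool.Agent.W930.EC
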